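import Pool.Agent.H92F.Main

/-! The Cohen–Lenstra first moment of the 5-torsion of class groups of quadratic function fields
over a finite field of characteristic 5: the mean is `2` (imaginary case, odd degree) and `6 / 5`
(real case, even degree). -/

set_option autoImplicit false
open Polynomial Filter Topology

namespace Pool.Agent.Results.MP_d0fd9b_nt.CharFive

theorem result (k : Type*) [Field k] [Fintype k] [CharP k 5] :
    Tendsto (fun n : ℕ =>
      (∑ᶠ f ∈ {f : k[X] | f.Monic ∧ f.natDegree = n ∧ Squarefree f},
          (Nat.card {c : CommRing.Pic (QuadraticAlgebra k[X] f 0) // c ^ 5 = 1} : ℝ)) /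
        ({f : k[X] | f.Monic ∧ f.natDegree = n ∧ Squarefree f}.ncard : ℝ) -
        (if Even n then 6 / 5 else 2)) atTop (𝓝 0) :=
  CL5.main

end Pool.Agent.Results.MP_d0fd9b_nt.CharFive
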