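import Pool.Agent.MP_d0fd9b_nt.Main

/-! The mean of the class number of `ℚ(√p)` over the primes `p ≤ N` is
`O(√N √(log log N) / (log N) ^ (3 / 2))`. -/

set_option autoImplicit false
open Pool.Agent.MP_d0fd9b_nt

namespace Pool.Agent.Results.MP_d0fd9b_nt.MeanBound

theorem result : ∃ C : ℝ, ∀ᶠ N : ℕ in Filter.atTop,
    (∑ p ∈ (Finset.Icc 1 N).filter Nat.Prime, (classNum p : ℝ)) / Nat.primeCounting N ≤
      C * (Real.sqrt N * Real.sqrt (Real.log (Real.log N)) / Real.log N ^ (3 / 2 : ℝ)) := by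
  refine ⟨10 ^ 9, ?_⟩
  filter_upwards [Filter.eventually_ge_atTop (5 ^ 32), eventually_loglog] with N h1 h2
  exact mean_bound h1 h2

end Pool.Agent.Results.MP_d0fd9b_nt.MeanBound
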